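import Mathlib

set_option autoImplicit false

namespace Pool.Agent.Helper35.FitU

universe u

open scoped commutatorElement

open Cardinal

section basic

variable {P : Type u} [Group P]

/-- `K` is subnormal in the member `L` of the chain. -/
inductive SN (K : Subgroup P) : Subgroup P → Prop
  | refl : SN K K
  | step (L M : Subgroup P) : SN K L → L ≤ M → (∀ m ∈ M, ∀ l ∈ L, m * l * m⁻¹ ∈ L) → SN K M

theorem SN.le {K L : Subgroup P} (h : SN K L) : K ≤ L := by
  induction h with
  | refl => exact le_rfl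
  | step L M _ hLM _ ih => exact ih.trans hLM

theorem SN.inf {K L N : Subgroup P} (h : SN K L) (hK : K ≤ N) : SN K (L ⊓ N) := by
  induction h with
  | refl => rw [inf_of_le_left hK]; exact SN.refl
  | step L M _ hLM hn ih =>
    refine SN.step (L ⊓ N) (M ⊓ N) ih (inf_le_inf_right N hLM) ?_
    rintro m ⟨hm, hmN⟩ l ⟨hl, hlN⟩
    exact ⟨hn m hm l hl, N.mul_mem (N.mul_mem hmN hlN) (N.inv_mem hmN)⟩

theorem SN.eq_of_simple {K L : Subgroup P} (h : SN K L) (hL : IsSimpleGroup L) (hK : K ≠ ⊥) :
    K = L := by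
  induction h with
  | refl => rfl
  | step L M hKL hLM hn ih =>
    rcases (Subgroup.isSimpleGroup_iff.mp hL).2 L hLM (by
      constructor
      intro l hl m
      rw [Subgroup.mem_subgroupOf] at hl ⊢
      exact hn m m.2 l hl) with h1 | h1
    · exfalso
      apply hK
      have := hKL.le
      rw [h1] at this
      exact le_bot_iff.mp this
    · rw [h1] at ih
      exact ih hL

theorem SN.map {Q : Type u} [Group Q] (f : Q →* P) {K L : Subgroup Q} (h : SN K L) :
    SN (K.map f) (L.map f) := by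
  induction h with
  | refl => exact SN.refl
  | step L M _ hLM hn ih =>
    refine SN.step (L.map f) (M.map f) ih (Subgroup.map_mono hLM) ?_
    rintro _ ⟨m, hm, rfl⟩ _ ⟨l, hl, rfl⟩
    exact ⟨m * l * m⁻¹, hn m hm l hl, by simp⟩

theorem SN.comap {Q : Type u} [Group Q] (f : Q →* P) {K L : Subgroup P} (h : SN K L) :
    SN (K.comap f) (L.comap f) := by
  induction h with
  | refl => exact SN.refl
  | step L M _ hLM hn ih =>
    refine SN.step (L.comap f) (M.comap f) ih (Subgroup.comap_mono hLM) ?_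
    intro m hm l hl
    rw [Subgroup.mem_comap] at hm hl ⊢
    simpa using hn _ hm _ hl

/-- `h` acts `κ`-smally on `K`. -/
def Small (κ : Cardinal.{u}) (K : Subgroup P) (h : P) : Prop :=
  ∃ F : Set P, F ⊆ K ∧ #F ≤ κ ∧ ∀ x ∈ K, (∀ f ∈ F, x * f = f * x) → x * h = h * x

theorem Small.of_comm {κ : Cardinal.{u}} {K : Subgroup P} {h : P}
    (H : ∀ k ∈ K, k * h = h * k) : Small κ K h :=
  ⟨∅, by simp, by simp, fun x hx _ => H x hx⟩

theorem Small.mul {κ : Cardinal.{u}} (hκ : ℵ₀ ≤ κ) {K : Subgroup P} {h h' : P}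
    (H : Small κ K h) (H' : Small κ K h') : Small κ K (h * h') := by
  obtain ⟨F, hF, hc, hx⟩ := H
  obtain ⟨F', hF', hc', hx'⟩ := H'
  refine ⟨F ∪ F', Set.union_subset hF hF', ?_, ?_⟩
  · calc #(F ∪ F' : Set P) ≤ #F + #F' := mk_union_le _ _
      _ ≤ κ + κ := add_le_add hc hc'
      _ = κ := add_eq_self hκ
  · intro x hxK hcomm
    have h1 := hx x hxK (fun f hf => hcomm f (Or.inl hf))
    have h2 := hx' x hxK (fun f hf => hcomm f (Or.inr hf))
    rw [← mul_assoc, h1, mul_assoc, h2, mul_assoc]

/-- non-commutative subgroup -/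
def NC (K : Subgroup P) : Prop := ∃ a ∈ K, ∃ b ∈ K, a * b ≠ b * a

/-- The relative version of the class. -/
def FR (κ : Cardinal.{u}) (N : Subgroup P) : Prop :=
  ∀ K : Subgroup P, SN K N → IsSimpleGroup K → NC K → ∀ h ∈ N, Small κ K h

theorem FR.normal {κ : Cardinal.{u}} {M N : Subgroup P} (hM : FR κ M) (hNM : N ≤ M)
    (hn : ∀ m ∈ M, ∀ l ∈ N, m * l * m⁻¹ ∈ N) : FR κ N := by
  intro K hK hs hc h hh
  exact hM K (SN.step N M hK hNM hn) hs hc h (hNM hh)

/-- A simple noncommutative group is generated by its commutators. -/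
theorem perfect_of_simple {K : Subgroup P} (hs : IsSimpleGroup K) (hc : NC K) (C : Subgroup P)
    (hC : ∀ k ∈ K, ∀ l ∈ K, k * l * k⁻¹ * l⁻¹ ∈ C) : K ≤ C := by
  have h1 : _root_.commutator K = ⊥ ∨ _root_.commutator K = ⊤ :=
    (inferInstance : (_root_.commutator K).Normal).eq_bot_or_eq_top
  rcases h1 with h1 | h1
  · exfalso
    obtain ⟨a, ha, b, hb, hab⟩ := hc
    apply hab
    have h2 : ⁅(⟨a, ha⟩ : K), (⟨b, hb⟩ : K)⁆ ∈ _root_.commutator K := by
      rw [commutator_def]
      exact Subgroup.commutator_mem_commutator (Subgroup.mem_top _) (Subgroup.mem_top _)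
    rw [h1, Subgroup.mem_bot, commutatorElement_eq_one_iff_mul_comm] at h2
    exact congrArg Subtype.val h2
  · have h2 : _root_.commutator K ≤ C.subgroupOf K := by
      rw [commutator_def, Subgroup.commutator_le]
      intro k _ l _
      rw [Subgroup.mem_subgroupOf]
      simpa [commutatorElement_def] using hC k k.2 l l.2
    rw [h1] at h2
    intro k hk
    have := h2 (Subgroup.mem_top (⟨k, hk⟩ : K))
    rwa [Subgroup.mem_subgroupOf] at this

/-- Components: a simple nonabelian subnormal subgroup lies in, or commutes with, each normal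
subgroup. -/
theorem component {K L N : Subgroup P} (h : SN K L) (hs : IsSimpleGroup K) (hc : NC K)
    (hN : N.Normal) : K ≤ N ∨ ∀ x ∈ N, x ∈ L → ∀ k ∈ K, x * k = k * x := by
  by_cases hKN : K ≤ N
  · exact Or.inl hKN
  right
  have hbot : ∀ x ∈ K, x ∈ N → x = 1 := by
    have h1 : (N.subgroupOf K) = ⊥ ∨ (N.subgroupOf K) = ⊤ :=
      (hN.subgroupOf K).eq_bot_or_eq_top
    rcases h1 with h1 | h1
    · intro x hx hxN
      have : (⟨x, hx⟩ : K) ∈ N.subgroupOf K := by
        rw [Subgroup.mem_subgroupOf]; exact hxN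
      rw [h1, Subgroup.mem_bot] at this
      exact congrArg Subtype.val this
    · exact absurd (Subgroup.subgroupOf_eq_top.mp h1) hKN
  induction h with
  | refl =>
    intro x hxN hxK k _
    rw [hbot x hxK hxN]; simp
  | step L M hKL hLM hn ih =>
    intro x hxN hxM
    -- for all `y ∈ N ∩ L`, `y` commutes with `K`
    have key : K ≤ Subgroup.centralizer {x} := by
      apply perfect_of_simple hs hc
      intro k hk l hl
      have hkL : k ∈ L := hKL.le hk
      have hlL : l ∈ L := hKL.le hl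
      -- c_k = x k x⁻¹ k⁻¹
      set ck := x * k * x⁻¹ * k⁻¹ with hck
      set cl := x * l * x⁻¹ * l⁻¹ with hcl
      have hckL : ck ∈ L := L.mul_mem (hn x hxM k hkL) (L.inv_mem hkL)
      have hclL : cl ∈ L := L.mul_mem (hn x hxM l hlL) (L.inv_mem hlL)
      have hckN : ck ∈ N := by
        have : ck = x * (k * x⁻¹ * k⁻¹) := by rw [hck]; group
        rw [this]
        exact N.mul_mem hxN (hN.conj_mem _ (N.inv_mem hxN) k)
      have hclN : cl ∈ N := by
        have : cl = x * (l * x⁻¹ * l⁻¹) := by rw [hcl]; group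
        rw [this]
        exact N.mul_mem hxN (hN.conj_mem _ (N.inv_mem hxN) l)
      have hck_comm : ∀ z ∈ K, ck * z = z * ck := fun z hz => ih ck hckN hckL z hz
      have hcl_comm : ∀ z ∈ K, cl * z = z * cl := fun z hz => ih cl hclN hclL z hz
      -- x⁻¹ cl x ∈ N ∩ L commutes with k
      have hxinvM : x⁻¹ ∈ M := M.inv_mem hxM
      have h3 : (x⁻¹ * cl * x) * k = k * (x⁻¹ * cl * x) := by
        apply ih
        · simpa using hN.conj_mem _ hclN x⁻¹
        · simpa using hn x⁻¹ hxinvM cl hclL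
        · exact hk
      have h4 : cl * (x * k * x⁻¹) = (x * k * x⁻¹) * cl := by
        have := congrArg (fun t => x * t * x⁻¹) h3
        simpa [mul_assoc] using this
      have h5 : cl * ck = ck * cl := by
        have e1 : cl * ck = (cl * (x * k * x⁻¹)) * k⁻¹ := by rw [hck]; group
        have e2 : cl * k⁻¹ = k⁻¹ * cl := hcl_comm _ (K.inv_mem hk)
        rw [e1, h4, mul_assoc, e2, hck]
        group
      -- now x [k,l] x⁻¹ = [ck k, cl l] = [k,l]
      have hxk : x * k * x⁻¹ = ck * k := by rw [hck]; group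
      have hxl : x * l * x⁻¹ = cl * l := by rw [hcl]; group
      rw [Subgroup.mem_centralizer_singleton_iff]
      have e : x * (k * l * k⁻¹ * l⁻¹) * x⁻¹ = k * l * k⁻¹ * l⁻¹ := by
        have e0 : x * (k * l * k⁻¹ * l⁻¹) * x⁻¹
            = (x * k * x⁻¹) * (x * l * x⁻¹) * (x * k * x⁻¹)⁻¹ * (x * l * x⁻¹)⁻¹ := by group
        rw [e0, hxk, hxl]
        have a1 : ck * k * (cl * l) = (ck * cl) * (k * l) := by
          calc ck * k * (cl * l) = ck * (k * cl) * l := by group
            _ = ck * (cl * k) * l := by rw [hcl_comm k hk]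
            _ = (ck * cl) * (k * l) := by group
        have a2 : cl * l * (ck * k) = (ck * cl) * (l * k) := by
          calc cl * l * (ck * k) = cl * (l * ck) * k := by group
            _ = cl * (ck * l) * k := by rw [hck_comm l hl]
            _ = (cl * ck) * (l * k) := by group
            _ = (ck * cl) * (l * k) := by rw [h5]
        calc ck * k * (cl * l) * (ck * k)⁻¹ * (cl * l)⁻¹
            = (ck * k * (cl * l)) * (cl * l * (ck * k))⁻¹ := by group
          _ = ((ck * cl) * (k * l)) * ((ck * cl) * (l * k))⁻¹ := by rw [a1, a2]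
          _ = (ck * cl) * (k * l * k⁻¹ * l⁻¹) * (ck * cl)⁻¹ := by group
          _ = k * l * k⁻¹ * l⁻¹ := by
            have b1 : ∀ z ∈ K, (ck * cl) * z = z * (ck * cl) := by
              intro z hz
              rw [mul_assoc, hcl_comm z hz, ← mul_assoc, hck_comm z hz, mul_assoc]
            rw [b1 _ (K.mul_mem (K.mul_mem (K.mul_mem hk hl) (K.inv_mem hk)) (K.inv_mem hl))]
            group
      have e' := congrArg (fun t => t * x) e
      simpa [mul_assoc] using e'.symm
    intro k hk
    have := key hk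
    rw [Subgroup.mem_centralizer_singleton_iff] at this
    exact this.symm

theorem FR.sup {κ : Cardinal.{u}} (hκ : ℵ₀ ≤ κ) {N M : Subgroup P} (hN : N.Normal)
    (hM : M.Normal) (h1 : FR κ N) (h2 : FR κ M) : FR κ (N ⊔ M) := by
  intro K hK hs hc h hh
  have small : ∀ (A : Subgroup P), A.Normal → A ≤ N ⊔ M → FR κ A → ∀ a ∈ A, Small κ K a := by
    intro A hA hle hFR a ha
    rcases component hK hs hc hA with hKA | hcomm
    · have := hK.inf hKA
      rw [inf_of_le_right hle] at this
      exact hFR K this hs hc a ha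
    · exact Small.of_comm fun k hk => (hcomm a ha (hle ha) k hk).symm
  have : h ∈ ((N ⊔ M : Subgroup P) : Set P) := hh
  rw [Subgroup.normal_mul] at this
  obtain ⟨n, hn, m, hm, rfl⟩ := this
  exact (small N hN le_sup_left h1 n hn).mul hκ (small M hM le_sup_right h2 m hm)

theorem FR.of_map {κ : Cardinal.{u}} {Q : Type u} [Group Q] (f : Q →* P)
    (hf : Function.Injective f) {N : Subgroup Q} (h : FR κ (N.map f)) : FR κ N := by
  intro K hK hs hc x hx
  have hs' : IsSimpleGroup (K.map f) := by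
    exact ((K.equivMapOfInjective f hf).isSimpleGroup_congr).mp hs
  have hc' : NC (K.map f) := by
    obtain ⟨a, ha, b, hb, hab⟩ := hc
    refine ⟨f a, ⟨a, ha, rfl⟩, f b, ⟨b, hb, rfl⟩, ?_⟩
    rw [← map_mul, ← map_mul]
    exact fun h => hab (hf h)
  obtain ⟨F, hF, hcard, hcomm⟩ := h (K.map f) (hK.map f) hs' hc' (f x) ⟨x, hx, rfl⟩
  refine ⟨f ⁻¹' F, ?_, ?_, ?_⟩
  · intro y hy
    obtain ⟨z, hz, hzy⟩ := hF hy
    rwa [← hf hzy]
  · exact (mk_preimage_of_injective f F hf).trans hcard
  · intro y hy hyF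
    apply hf
    rw [map_mul, map_mul]
    apply hcomm (f y) ⟨y, hy, rfl⟩
    intro w hw
    obtain ⟨z, hz, rfl⟩ := hF hw
    rw [← map_mul, ← map_mul, hyF z hw]

theorem FR.map {κ : Cardinal.{u}} {Q : Type u} [Group Q] (f : Q →* P)
    (hf : Function.Injective f) {N : Subgroup Q} (h : FR κ N) : FR κ (N.map f) := by
  intro K hK hs hc x hx
  have hKN := hK.le
  have hKr : (K.comap f).map f = K := by
    apply Subgroup.map_comap_eq_self
    exact hKN.trans (Subgroup.map_le_range f N)
  have hSN : SN (K.comap f) N := by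
    have := hK.comap f
    rwa [Subgroup.comap_map_eq_self_of_injective hf] at this
  have hs' : IsSimpleGroup (K.comap f) := by
    have e := (K.comap f).equivMapOfInjective f hf
    rw [hKr] at e
    exact (e.isSimpleGroup_congr).mpr hs
  have hc' : NC (K.comap f) := by
    obtain ⟨a, ha, b, hb, hab⟩ := hc
    rw [← hKr] at ha hb
    obtain ⟨a', ha', rfl⟩ := ha
    obtain ⟨b', hb', rfl⟩ := hb
    refine ⟨a', ha', b', hb', fun h => hab ?_⟩
    rw [← map_mul, ← map_mul, h]
  obtain ⟨x', hx', rfl⟩ := hx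
  obtain ⟨F, hF, hcard, hcomm⟩ := h (K.comap f) hSN hs' hc' x' hx'
  refine ⟨f '' F, ?_, ?_, ?_⟩
  · rintro _ ⟨y, hy, rfl⟩
    exact hF hy
  · exact mk_image_le.trans hcard
  · intro y hy hyF
    rw [← hKr] at hy
    obtain ⟨y', hy', rfl⟩ := hy
    rw [← map_mul, ← map_mul]
    congr 1
    apply hcomm y' hy'
    intro w hw
    apply hf
    rw [map_mul, map_mul]
    exact hyF (f w) ⟨w, hw, rfl⟩

end basic

/-- The Fitting class attached to an infinite cardinal. -/
def FC (κ : Cardinal.{u}) (H : Type u) (iH : Group H) : Prop := @FR H iH κ ⊤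

theorem FC_subgroup_iff (κ : Cardinal.{u}) (H : Type u) (iH : Group H) (N : Subgroup H) :
    FC κ (↥N) inferInstance ↔ FR κ N := by
  constructor
  · intro h
    have := FR.map N.subtype N.subtype_injective h
    rwa [← MonoidHom.range_eq_map, Subgroup.range_subtype] at this
  · intro h
    apply FR.of_map N.subtype N.subtype_injective
    rwa [← MonoidHom.range_eq_map, Subgroup.range_subtype]

theorem FC_iso (κ : Cardinal.{u}) (H K : Type u) (iH : Group H) (iK : Group K)
    (e : Nonempty (H ≃* K)) (h : FC κ H iH) : FC κ K iK := by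
  obtain ⟨e⟩ := e
  have := FR.map e.toMonoidHom e.injective h
  rwa [← MonoidHom.range_eq_map, MonoidHom.range_eq_top.mpr e.surjective] at this

theorem FC_normal (κ : Cardinal.{u}) (H : Type u) (iH : Group H) (N : Subgroup H) (hN : N.Normal)
    (h : FC κ H iH) : FC κ (↥N) inferInstance := by
  rw [FC_subgroup_iff]
  exact FR.normal h le_top (fun m _ l hl => hN.conj_mem l hl m)

theorem FC_sup (κ : Cardinal.{u}) (hκ : ℵ₀ ≤ κ) (H : Type u) (iH : Group H) (N M : Subgroup H)
    (hN : N.Normal) (hM : M.Normal) (h1 : FC κ (↥N) inferInstance)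
    (h2 : FC κ (↥M) inferInstance) : FC κ (↥(N ⊔ M)) inferInstance := by
  rw [FC_subgroup_iff] at *
  exact FR.sup hκ hN hM h1 h2

end Pool.Agent.Helper35.FitU
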