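import Mathlib
import Pool.Agent.Helper35.FitU.Basic

set_option autoImplicit false

namespace Pool.Agent.Helper35.FitU

universe u

open Equiv Cardinal
open scoped commutatorElement

section alt

variable {Ω : Type u} [DecidableEq Ω]

/-- The finitary alternating group. -/
def Alt (Ω : Type u) [DecidableEq Ω] : Subgroup (Perm Ω) :=
  Subgroup.closure {σ | ∃ a b c d : Ω, a ≠ b ∧ c ≠ d ∧ σ = swap a b * swap c d}

theorem swap_mul_swap_mem {a b c d : Ω} (h1 : a ≠ b) (h2 : c ≠ d) :
    swap a b * swap c d ∈ Alt Ω :=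
  Subgroup.subset_closure ⟨a, b, c, d, h1, h2, rfl⟩

theorem conj_pair (π : Perm Ω) (a b c d : Ω) :
    π * (swap a b * swap c d) * π⁻¹ = swap (π a) (π b) * swap (π c) (π d) := by
  rw [Equiv.swap_apply_apply, Equiv.swap_apply_apply]; group

theorem Alt_conj (π : Perm Ω) {σ : Perm Ω} (h : σ ∈ Alt Ω) : π * σ * π⁻¹ ∈ Alt Ω := by
  induction h using Subgroup.closure_induction with
  | mem x hx =>
    obtain ⟨a, b, c, d, h1, h2, rfl⟩ := hx
    rw [conj_pair]
    exact swap_mul_swap_mem (π.injective.ne h1) (π.injective.ne h2)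
  | one => simp [Subgroup.one_mem]
  | mul x y _ _ hx hy =>
    have : π * (x * y) * π⁻¹ = (π * x * π⁻¹) * (π * y * π⁻¹) := by group
    rw [this]; exact Subgroup.mul_mem _ hx hy
  | inv x _ hx =>
    have : π * x⁻¹ * π⁻¹ = (π * x * π⁻¹)⁻¹ := by group
    rw [this]; exact Subgroup.inv_mem _ hx

instance Alt_normal : (Alt Ω).Normal := ⟨fun _ hn g => Alt_conj g hn⟩

theorem Alt_finite_support {σ : Perm Ω} (h : σ ∈ Alt Ω) : {x | σ x ≠ x}.Finite := by
  induction h using Subgroup.closure_induction with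
  | mem x hx =>
    obtain ⟨a, b, c, d, h1, h2, rfl⟩ := hx
    apply Set.Finite.subset (Set.toFinite ({a, b, c, d} : Set Ω))
    intro y hy
    by_contra hne
    simp only [Set.mem_insert_iff, Set.mem_singleton_iff, not_or] at hne
    obtain ⟨ha, hb, hc, hd⟩ := hne
    apply hy
    rw [Perm.mul_apply, swap_apply_of_ne_of_ne hc hd, swap_apply_of_ne_of_ne ha hb]
  | one => simp
  | mul x y _ _ hx hy =>
    apply (hx.union hy).subset
    intro z hz
    by_contra hne
    simp only [Set.mem_union, Set.mem_setOf_eq, not_or, not_not] at hne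
    apply hz
    rw [Perm.mul_apply, hne.2, hne.1]
  | inv x _ hx =>
    apply hx.subset
    intro z hz hz'
    apply hz
    rw [Perm.inv_eq_iff_eq, hz']

variable [Infinite Ω]

theorem exists_fresh (s : Finset Ω) : ∃ x, x ∉ s := Infinite.exists_notMem_finset s

/-- Two elements pin down a point. -/
theorem pin (t : Ω) : ∃ f ∈ Alt Ω, ∃ f' ∈ Alt Ω, f t ≠ t ∧
    ∀ x : Perm Ω, x * f = f * x → x * f' = f' * x → x t = t := by
  have aux : ∀ a b : Ω, a ≠ t → b ≠ t → b ≠ a → ∀ x : Perm Ω,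
      x * (swap t a * swap a b) = (swap t a * swap a b) * x → x t = t ∨ x t = a ∨ x t = b := by
    intro a b ha hb hab x hx
    by_contra hne
    simp only [not_or] at hne
    obtain ⟨h1, h2, h3⟩ := hne
    have := congrArg (fun σ : Perm Ω => σ t) hx
    simp only [Perm.mul_apply] at this
    rw [swap_apply_of_ne_of_ne ha.symm hb.symm, swap_apply_left,
      swap_apply_of_ne_of_ne h2 h3, swap_apply_of_ne_of_ne h1 h2] at this
    exact ha (x.injective this)
  obtain ⟨a, ha⟩ := exists_fresh ({t} : Finset Ω)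
  obtain ⟨b, hb⟩ := exists_fresh ({t, a} : Finset Ω)
  obtain ⟨c, hc⟩ := exists_fresh ({t, a, b} : Finset Ω)
  obtain ⟨d, hd⟩ := exists_fresh ({t, a, b, c} : Finset Ω)
  simp only [Finset.mem_insert, Finset.mem_singleton, not_or] at ha hb hc hd
  refine ⟨swap t a * swap a b, swap_mul_swap_mem (Ne.symm ha) (Ne.symm hb.2),
    swap t c * swap c d, swap_mul_swap_mem (Ne.symm hc.1) (Ne.symm hd.2.2.2), ?_, ?_⟩
  · rw [Perm.mul_apply, swap_apply_of_ne_of_ne (Ne.symm ha) (Ne.symm hb.1), swap_apply_left]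
    exact ha
  · intro x hx hx'
    rcases aux a b ha hb.1 hb.2 x hx with h | h | h
    · exact h
    · rcases aux c d hc.1 hd.1 hd.2.2.2 x hx' with h' | h' | h'
      · exact h'
      · exact absurd (h'.symm.trans h) hc.2.1
      · exact absurd (h'.symm.trans h) hd.2.1
    · rcases aux c d hc.1 hd.1 hd.2.2.2 x hx' with h' | h' | h'
      · exact h'
      · exact absurd (h'.symm.trans h) hc.2.2
      · exact absurd (h'.symm.trans h) hd.2.2.1

theorem centralizer_Alt (x : Perm Ω) (h : ∀ k ∈ Alt Ω, x * k = k * x) : x = 1 := by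
  ext t
  obtain ⟨f, hf, f', hf', _, hx⟩ := pin t
  exact hx x (h f hf) (h f' hf')

theorem Alt_NC : NC (Alt Ω) := by
  by_contra hcon
  simp only [NC, not_exists, not_and, not_not] at hcon
  obtain ⟨t, _⟩ := exists_fresh (∅ : Finset Ω)
  obtain ⟨f, hf, f', hf', hne, _⟩ := pin t
  have : f = 1 := centralizer_Alt f (fun k hk => hcon f hf k hk)
  rw [this] at hne
  exact hne rfl

section simple

variable {K : Subgroup (Perm Ω)}

omit [Infinite Ω] in
theorem rot {a b c : Ω} (hab : a ≠ b) (hbc : b ≠ c) (hac : a ≠ c) :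
    swap a b * swap b c = swap b c * swap c a := by
  ext x
  simp only [Perm.mul_apply]
  by_cases h1 : x = a
  · subst h1
    rw [swap_apply_of_ne_of_ne hab hac, swap_apply_left, swap_apply_right, swap_apply_right]
  · by_cases h2 : x = b
    · subst h2
      rw [swap_apply_left, swap_apply_of_ne_of_ne (Ne.symm hac) (Ne.symm hbc),
        swap_apply_of_ne_of_ne hbc (Ne.symm hab), swap_apply_left]
    · by_cases h3 : x = c
      · subst h3
        rw [swap_apply_right, swap_apply_right, swap_apply_left,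
          swap_apply_of_ne_of_ne hab hac]
      · rw [swap_apply_of_ne_of_ne h2 h3, swap_apply_of_ne_of_ne h1 h2,
          swap_apply_of_ne_of_ne h3 h1, swap_apply_of_ne_of_ne h2 h3]

theorem replace_one (hK : ∀ a ∈ Alt Ω, ∀ k ∈ K, a * k * a⁻¹ ∈ K) {a b c x : Ω}
    (h : swap a b * swap b c ∈ K) (hab : a ≠ b) (hac : a ≠ c)
    (hxa : x ≠ a) (hxb : x ≠ b) (hxc : x ≠ c) : swap x b * swap b c ∈ K := by
  obtain ⟨u, hu⟩ := exists_fresh ({a, b, c, x} : Finset Ω)
  obtain ⟨v, hv⟩ := exists_fresh ({a, b, c, x, u} : Finset Ω)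
  simp only [Finset.mem_insert, Finset.mem_singleton, not_or] at hu hv
  obtain ⟨hua, hub, huc, hux⟩ := hu
  obtain ⟨hva, hvb, hvc, hvx, hvu⟩ := hv
  have h1 := hK (swap a x * swap u v) (swap_mul_swap_mem hxa.symm (Ne.symm hvu)) _ h
  rw [conj_pair] at h1
  have e1 : (swap a x * swap u v) a = x := by
    rw [Perm.mul_apply, swap_apply_of_ne_of_ne (Ne.symm hua) (Ne.symm hva), swap_apply_left]
  have e2 : (swap a x * swap u v) b = b := by
    rw [Perm.mul_apply, swap_apply_of_ne_of_ne (Ne.symm hub) (Ne.symm hvb),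
      swap_apply_of_ne_of_ne (Ne.symm hab) (Ne.symm hxb)]
  have e3 : (swap a x * swap u v) c = c := by
    rw [Perm.mul_apply, swap_apply_of_ne_of_ne (Ne.symm huc) (Ne.symm hvc),
      swap_apply_of_ne_of_ne (Ne.symm hac) (Ne.symm hxc)]
  rwa [e1, e2, e3] at h1

/-- Move a 3-cycle one entry at a time. -/
theorem replace_rot (hK : ∀ a ∈ Alt Ω, ∀ k ∈ K, a * k * a⁻¹ ∈ K) {a b c x : Ω}
    (h : swap a b * swap b c ∈ K) (hab : a ≠ b) (hbc : b ≠ c) (hac : a ≠ c)
    (hxa : x ≠ a) (hxb : x ≠ b) (hxc : x ≠ c) : swap b c * swap c x ∈ K := by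
  have := replace_one hK h hab hac hxa hxb hxc
  rwa [rot hxb hbc hxc] at this

theorem all_three (hK : ∀ a ∈ Alt Ω, ∀ k ∈ K, a * k * a⁻¹ ∈ K) {a b c : Ω}
    (h : swap a b * swap b c ∈ K) (hab : a ≠ b) (hbc : b ≠ c) (hac : a ≠ c)
    {x y z : Ω} (hxy : x ≠ y) (hyz : y ≠ z) (hxz : x ≠ z) : swap x y * swap y z ∈ K := by
  obtain ⟨p, hp⟩ := exists_fresh ({a, b, c, x, y, z} : Finset Ω)
  obtain ⟨q, hq⟩ := exists_fresh ({a, b, c, x, y, z, p} : Finset Ω)
  obtain ⟨r, hr⟩ := exists_fresh ({a, b, c, x, y, z, p, q} : Finset Ω)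
  simp only [Finset.mem_insert, Finset.mem_singleton, not_or] at hp hq hr
  obtain ⟨hpa, hpb, hpc, hpx, hpy, hpz⟩ := hp
  obtain ⟨hqa, hqb, hqc, hqx, hqy, hqz, hqp⟩ := hq
  obtain ⟨hra, hrb, hrc, hrx, hry, hrz, hrp, hrq⟩ := hr
  have h1 : swap b c * swap c p ∈ K := replace_rot hK h hab hbc hac hpa hpb hpc
  have h2 : swap c p * swap p q ∈ K :=
    replace_rot hK h1 hbc (Ne.symm hpc) (Ne.symm hpb) hqb hqc hqp
  have h3 : swap p q * swap q r ∈ K :=
    replace_rot hK h2 (Ne.symm hpc) (Ne.symm hqp) (Ne.symm hqc) hrc hrp hrq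
  have h4 : swap q r * swap r x ∈ K :=
    replace_rot hK h3 (Ne.symm hqp) (Ne.symm hrq) (Ne.symm hrp) (Ne.symm hpx) (Ne.symm hqx)
      (Ne.symm hrx)
  have h5 : swap r x * swap x y ∈ K :=
    replace_rot hK h4 (Ne.symm hrq) hrx hqx (Ne.symm hqy) (Ne.symm hry) hxy.symm
  exact replace_rot hK h5 hrx hxy hry (Ne.symm hrz) hxz.symm hyz.symm

theorem Alt_le (hK : ∀ a ∈ Alt Ω, ∀ k ∈ K, a * k * a⁻¹ ∈ K) {a b c : Ω}
    (h : swap a b * swap b c ∈ K) (hab : a ≠ b) (hbc : b ≠ c) (hac : a ≠ c) : Alt Ω ≤ K := by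
  unfold Alt
  rw [Subgroup.closure_le]
  rintro _ ⟨x, y, z, w, hxy, hzw, rfl⟩
  obtain ⟨u, hu⟩ := exists_fresh ({x, y, z, w} : Finset Ω)
  simp only [Finset.mem_insert, Finset.mem_singleton, not_or] at hu
  obtain ⟨hux, huy, huz, huw⟩ := hu
  have e : swap x y * swap z w
      = (swap x y * swap y u) * (swap y u * swap u z) * (swap u z * swap z w) := by
    have s1 : swap y u * swap y u = 1 := swap_mul_self y u
    have s2 : swap u z * swap u z = 1 := swap_mul_self u z
    calc swap x y * swap z w = swap x y * 1 * 1 * swap z w := by simp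
      _ = swap x y * (swap y u * swap y u) * (swap u z * swap u z) * swap z w := by
          rw [s1, s2]
      _ = _ := by simp only [mul_assoc]
  rw [e]
  apply K.mul_mem
  · apply K.mul_mem
    · exact all_three hK h hab hbc hac hxy (Ne.symm huy) (Ne.symm hux)
    · by_cases hyz : y = z
      · subst hyz
        have : swap y u * swap u y = 1 := by rw [swap_comm u y]; exact swap_mul_self y u
        rw [this]; exact K.one_mem
      · exact all_three hK h hab hbc hac (Ne.symm huy) huz hyz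
  · exact all_three hK h hab hbc hac huz hzw huw

theorem Alt_simple_aux (hKA : K ≤ Alt Ω) (hK : ∀ a ∈ Alt Ω, ∀ k ∈ K, a * k * a⁻¹ ∈ K)
    (hne : K ≠ ⊥) : K = Alt Ω := by
  apply le_antisymm hKA
  obtain ⟨σ, hσ, hσ1⟩ := K.bot_or_exists_ne_one.resolve_left hne
  have hex : ∃ a, σ a ≠ a := by
    by_contra hcon
    simp only [not_exists, not_not] at hcon
    exact hσ1 (Equiv.ext hcon)
  obtain ⟨a, ha⟩ := hex
  have hfin := Alt_finite_support (hKA hσ)
  obtain ⟨c, hc⟩ := exists_fresh (hfin.toFinset)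
  obtain ⟨d, hd⟩ := exists_fresh (insert c hfin.toFinset)
  rw [Set.Finite.mem_toFinset] at hc
  rw [Finset.mem_insert, Set.Finite.mem_toFinset, not_or] at hd
  simp only [Set.mem_setOf_eq, not_not] at hc hd
  obtain ⟨hdc, hd⟩ := hd
  have hca : c ≠ a := by rintro rfl; exact ha hc
  have hda : d ≠ a := by rintro rfl; exact ha hd
  have hcb : c ≠ σ a := by
    intro h; rw [h] at hc; exact ha (σ.injective hc)
  have hdb : d ≠ σ a := by
    intro h; rw [h] at hd; exact ha (σ.injective hd)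
  -- the commutator
  have hτ : swap a c * swap c d ∈ Alt Ω := swap_mul_swap_mem hca.symm (Ne.symm hdc)
  have hmem : σ * ((swap a c * swap c d) * σ⁻¹ * (swap a c * swap c d)⁻¹) ∈ K :=
    K.mul_mem hσ (hK _ hτ _ (K.inv_mem hσ))
  have e : σ * ((swap a c * swap c d) * σ⁻¹ * (swap a c * swap c d)⁻¹)
      = swap (σ a) c * swap c a := by
    have e1 : σ * ((swap a c * swap c d) * σ⁻¹ * (swap a c * swap c d)⁻¹)
        = (σ * (swap a c * swap c d) * σ⁻¹) * (swap a c * swap c d)⁻¹ := by group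
    rw [e1, conj_pair, hc, hd, mul_inv_rev, swap_inv, swap_inv]
    have s2 : swap c d * swap c d = 1 := swap_mul_self c d
    calc swap (σ a) c * swap c d * (swap c d * swap a c)
        = swap (σ a) c * (swap c d * swap c d) * swap a c := by simp only [mul_assoc]
      _ = swap (σ a) c * swap c a := by rw [s2, mul_one, swap_comm a c]
  rw [e] at hmem
  exact Alt_le hK hmem hcb.symm hca ha

instance Alt_simple : IsSimpleGroup (Alt Ω) := by
  rw [Subgroup.isSimpleGroup_iff]
  constructor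
  · intro h
    obtain ⟨a, ha, b, hb, hab⟩ := (Alt_NC : NC (Alt Ω))
    rw [h, Subgroup.mem_bot] at ha
    rw [ha] at hab
    simp at hab
  · intro H' hle hn
    by_cases hne : H' = ⊥
    · exact Or.inl hne
    · right
      apply Alt_simple_aux hle _ hne
      intro a ha k hk
      have := hn.conj_mem ⟨k, hle hk⟩ (by rw [Subgroup.mem_subgroupOf]; exact hk) ⟨a, ha⟩
      rwa [Subgroup.mem_subgroupOf] at this

end simple

end alt

end Pool.Agent.Helper35.FitU
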