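import Pool.Agent.Helper35.FitU.Comp

/-!
The inductive definition agrees with the one by chains.
-/

set_option autoImplicit false

namespace Pool.Agent.Helper35.FitU

universe u

/-- `A` is normal in `B` with simple quotient. -/
def Sq {G : Type u} [Group G] (A B : Subgroup G) : Prop :=
  A ≤ B ∧ ∃ _ : (A.subgroupOf B).Normal, IsSimpleGroup (↥B ⧸ A.subgroupOf B)

theorem sq_iff {G : Type u} [Group G] (A B : Subgroup G) :
    Sq A B ↔ A ≤ B ∧ ∃ (Q : Type u) (_ : Group Q) (f : B →* Q), Function.Surjective f ∧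
      IsSimpleGroup Q ∧ A.subgroupOf B = f.ker := by
  constructor
  · rintro ⟨h1, h2, h3⟩
    exact ⟨h1, _, inferInstance, QuotientGroup.mk' _, QuotientGroup.mk'_surjective _, h3,
      (QuotientGroup.ker_mk' _).symm⟩
  · rintro ⟨h1, Q, iQ, f, hf, hQ, hk⟩
    refine ⟨h1, ?_⟩
    rw [hk]
    refine ⟨inferInstance, ?_⟩
    exact ((QuotientGroup.quotientKerEquivOfSurjective f hf).isSimpleGroup_congr).2 hQ

theorem Sq.map {G G' : Type u} [Group G] [Group G'] (j : G →* G') (hj : Function.Injective j)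
    {A B : Subgroup G} (h : Sq A B) : Sq (A.map j) (B.map j) := by
  rw [sq_iff] at h ⊢
  obtain ⟨h1, Q, iQ, f, hf, hQ, hk⟩ := h
  obtain ⟨e, he⟩ : ∃ e : B ≃* B.map j, ∀ x, ((e x : B.map j) : G') = j x :=
    ⟨B.equivMapOfInjective j hj, fun x => rfl⟩
  refine ⟨Subgroup.map_mono h1, Q, iQ, f.comp e.symm.toMonoidHom, hf.comp e.symm.surjective, hQ, ?_⟩
  ext x
  obtain ⟨y, rfl⟩ := e.surjective x
  rw [Subgroup.mem_subgroupOf, MonoidHom.mem_ker, MonoidHom.comp_apply]
  have h2 : e.symm.toMonoidHom (e y) = y := e.symm_apply_apply y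
  rw [h2, ← MonoidHom.mem_ker, ← hk, Subgroup.mem_subgroupOf, he]
  constructor
  · rintro ⟨z, hz, hzy⟩
    rw [← hj hzy]
    exact hz
  · intro h3
    exact ⟨_, h3, rfl⟩

theorem cmp_of_chain {H : Type u} [iH : Group H]
    (h : ∃ (n : ℕ) (s : Fin (n + 1) → Subgroup H), s 0 = ⊥ ∧ s (Fin.last n) = ⊤ ∧
      ∀ i : Fin n, Sq (s i.castSucc) (s i.succ)) : Cmp H iH := by
  obtain ⟨n, s, h0, hl, hs⟩ := h
  have key : ∀ i : Fin (n + 1), Cmp (↥(s i)) inferInstance := by
    intro i
    induction i using Fin.induction with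
    | zero =>
      rw [h0]
      exact Cmp.triv _ _ inferInstance
    | succ i ih =>
      obtain ⟨h1, Q, iQ, f, hf, hQ, hk⟩ := (sq_iff _ _).1 (hs i)
      refine Cmp.step _ _ Q iQ f hf hQ ?_
      exact ih.iso ((Subgroup.subgroupOfEquivOfLe h1).symm.trans (MulEquiv.subgroupCongr hk))
  have h1 := key (Fin.last n)
  exact h1.iso ((MulEquiv.subgroupCongr hl).trans Subgroup.topEquiv)

theorem Cmp.chain {H : Type u} {iH : Group H} (h : Cmp H iH) :
    ∃ (n : ℕ) (s : Fin (n + 1) → Subgroup H), s 0 = ⊥ ∧ s (Fin.last n) = ⊤ ∧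
      ∀ i : Fin n, Sq (s i.castSucc) (s i.succ) := by
  induction h with
  | triv G iG hG =>
    exact ⟨0, fun _ => ⊥, rfl, Subsingleton.elim _ _, fun i => i.elim0⟩
  | step G iG Q iQ f hf hQ _ ih =>
    obtain ⟨n, s, h0, hl, hs⟩ := ih
    refine ⟨n + 1, Fin.snoc (fun i => (s i).map f.ker.subtype) ⊤, ?_, ?_, ?_⟩
    · have h1 : (0 : Fin (n + 1 + 1)) = Fin.castSucc (0 : Fin (n + 1)) := rfl
      rw [h1, Fin.snoc_castSucc (α := fun _ => Subgroup G), h0, Subgroup.map_bot]
    · rw [Fin.snoc_last (α := fun _ => Subgroup G)]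
    · intro i
      induction i using Fin.lastCases with
      | last =>
        rw [Fin.succ_last, Fin.snoc_last (α := fun _ => Subgroup G),
          Fin.snoc_castSucc (α := fun _ => Subgroup G), hl, ← MonoidHom.range_eq_map,
          Subgroup.range_subtype, sq_iff]
        refine ⟨le_top, Q, iQ, f.comp (⊤ : Subgroup G).subtype, ?_, hQ, ?_⟩
        · intro y
          obtain ⟨x, rfl⟩ := hf y
          exact ⟨⟨x, Subgroup.mem_top x⟩, rfl⟩
        · ext x
          rw [Subgroup.mem_subgroupOf, MonoidHom.mem_ker, MonoidHom.mem_ker]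
          rfl
      | cast i =>
        rw [← Fin.castSucc_succ, Fin.snoc_castSucc (α := fun _ => Subgroup G),
          Fin.snoc_castSucc (α := fun _ => Subgroup G)]
        exact (hs i).map _ (Subgroup.subtype_injective _)

end Pool.Agent.Helper35.FitU
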