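import Mathlib

/-!
Groups with a composition series are closed under normal subgroups, quotients and extensions.
-/

set_option autoImplicit false

namespace Pool.Agent.Helper35.FitU

universe u

/-- Groups with a composition series, inductively. -/
inductive Cmp : (G : Type u) → Group G → Prop
  | triv (G : Type u) (iG : Group G) : Subsingleton G → Cmp G iG
  | step (G : Type u) (iG : Group G) (Q : Type u) (iQ : Group Q) (f : G →* Q) :
      Function.Surjective f → IsSimpleGroup Q → Cmp (↥f.ker) inferInstance → Cmp G iG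

/-- Normal subgroups. -/
theorem Cmp.normal {G : Type u} {iG : Group G} (h : Cmp G iG) :
    ∀ (M : Type u) (iM : Group M) (j : M →* G), Function.Injective j → j.range.Normal →
      Cmp M iM := by
  induction h with
  | triv G iG hG =>
    intro M iM j hj _
    exact Cmp.triv M iM (hj.subsingleton)
  | step G iG Q iQ f hf hQ _ ih =>
    intro M iM j hj hn
    have hn' : (f.comp j).range.Normal := by
      rw [MonoidHom.range_eq_map, ← Subgroup.map_map, ← MonoidHom.range_eq_map]
      exact hn.map f hf
    rcases hn'.eq_bot_or_eq_top with h1 | h1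
    · have h2 : ∀ m, j m ∈ f.ker := by
        intro m
        have h3 : (f.comp j) m ∈ (f.comp j).range := ⟨m, rfl⟩
        rw [h1, Subgroup.mem_bot] at h3
        exact h3
      refine ih M iM (j.codRestrict f.ker h2) ?_ ?_
      · intro x y hxy
        exact hj (congrArg Subtype.val hxy)
      · constructor
        rintro _ ⟨m, rfl⟩ g
        obtain ⟨m', hm'⟩ := hn.conj_mem (j m) ⟨m, rfl⟩ g
        exact ⟨m', Subtype.ext hm'⟩
    · refine Cmp.step M iM Q iQ (f.comp j) (MonoidHom.range_eq_top.1 h1) hQ ?_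
      have h2 : ∀ m : (f.comp j).ker, (j.comp (f.comp j).ker.subtype) m ∈ f.ker := by
        intro m
        exact m.2
      refine ih _ _ ((j.comp (f.comp j).ker.subtype).codRestrict f.ker h2) ?_ ?_
      · intro x y hxy
        exact Subtype.ext (hj (congrArg Subtype.val hxy))
      · constructor
        rintro _ ⟨m, rfl⟩ g
        obtain ⟨m', hm'⟩ := hn.conj_mem (j m) ⟨m, rfl⟩ g
        have h3 : m' ∈ (f.comp j).ker := by
          rw [MonoidHom.mem_ker, MonoidHom.comp_apply, hm', map_mul, map_mul, map_inv]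
          have h4 : f (j m) = 1 := m.2
          rw [h4, mul_one, mul_inv_cancel]
        exact ⟨⟨m', h3⟩, Subtype.ext hm'⟩

theorem Cmp.iso {G K : Type u} {iG : Group G} {iK : Group K} (h : Cmp G iG) (e : G ≃* K) :
    Cmp K iK := by
  refine h.normal K iK e.symm.toMonoidHom e.symm.injective ?_
  have : e.symm.toMonoidHom.range = ⊤ := MonoidHom.range_eq_top.2 e.symm.surjective
  rw [this]
  infer_instance

/-- Quotients. -/
theorem Cmp.quot {G : Type u} {iG : Group G} (h : Cmp G iG) :
    ∀ (H : Type u) (iH : Group H) (q : G →* H), Function.Surjective q → Cmp H iH := by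
  induction h with
  | triv G iG hG =>
    intro H iH q hq
    exact Cmp.triv H iH (hq.subsingleton)
  | step G iG Q iQ f hf hQ _ ih =>
    intro H iH q hq
    have hA : (f.ker.map q).Normal := (inferInstance : f.ker.Normal).map q hq
    have hA' : Cmp (↥(f.ker.map q)) inferInstance :=
      ih _ _ (q.subgroupMap f.ker) (q.subgroupMap_surjective f.ker)
    obtain ⟨π, hπ⟩ : ∃ π : H →* H ⧸ (f.ker.map q), π = QuotientGroup.mk' _ := ⟨_, rfl⟩
    have hπs : Function.Surjective π := by
      rw [hπ]
      exact QuotientGroup.mk'_surjective _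
    have hπk : π.ker = f.ker.map q := by
      rw [hπ]
      exact QuotientGroup.ker_mk' _
    have hle : f.ker ≤ (π.comp q).ker := by
      intro x hx
      rw [MonoidHom.mem_ker, MonoidHom.comp_apply, ← MonoidHom.mem_ker, hπk]
      exact ⟨x, hx, rfl⟩
    obtain ⟨φ, hφ⟩ : ∃ φ : Q →* H ⧸ (f.ker.map q), ∀ x, φ (f x) = π (q x) :=
      ⟨f.liftOfSurjective hf ⟨π.comp q, hle⟩, fun x => f.liftOfRightInverse_comp_apply _ _ ⟨π.comp q, hle⟩ x⟩
    have hφs : Function.Surjective φ := by
      intro y
      obtain ⟨z, rfl⟩ := hπs y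
      obtain ⟨x, rfl⟩ := hq z
      exact ⟨f x, hφ x⟩
    rcases (inferInstance : φ.ker.Normal).eq_bot_or_eq_top with h1 | h1
    · refine Cmp.step H iH _ _ π hπs ?_ (hA'.iso (MulEquiv.subgroupCongr hπk.symm))
      have e : Q ≃* H ⧸ (f.ker.map q) :=
        MulEquiv.ofBijective φ ⟨(MonoidHom.ker_eq_bot_iff φ).1 h1, hφs⟩
      exact (e.isSimpleGroup_congr).1 hQ
    · have h2 : f.ker.map q = ⊤ := by
        rw [← hπk, eq_top_iff]
        intro z _
        obtain ⟨x, rfl⟩ := hq z
        rw [MonoidHom.mem_ker, ← hφ x, ← MonoidHom.mem_ker, h1]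
        exact Subgroup.mem_top _
      exact hA'.iso ((MulEquiv.subgroupCongr h2).trans Subgroup.topEquiv)

/-- Extensions. -/
theorem Cmp.ext {B : Type u} {iB : Group B} (h : Cmp B iB) :
    ∀ (G : Type u) (iG : Group G) (p : G →* B), Function.Surjective p →
      Cmp (↥p.ker) inferInstance → Cmp G iG := by
  induction h with
  | triv B iB hB =>
    intro G iG p _ hp
    have h1 : p.ker = ⊤ := by
      rw [eq_top_iff]
      intro x _
      exact Subsingleton.elim _ _
    exact hp.iso ((MulEquiv.subgroupCongr h1).trans Subgroup.topEquiv)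
  | step B iB Q iQ f hf hQ _ ih =>
    intro G iG p hps hp
    refine Cmp.step G iG Q iQ (f.comp p) (hf.comp hps) hQ ?_
    have h1 : ∀ m : (f.comp p).ker, (p.comp (f.comp p).ker.subtype) m ∈ f.ker := fun m => m.2
    refine ih _ _ ((p.comp (f.comp p).ker.subtype).codRestrict f.ker h1) ?_ ?_
    · rintro ⟨y, hy⟩
      obtain ⟨x, rfl⟩ := hps y
      exact ⟨⟨x, hy⟩, rfl⟩
    · have h2 : ∀ x : ((p.comp (f.comp p).ker.subtype).codRestrict f.ker h1).ker,
          p x.1.1 = 1 := fun x => congrArg Subtype.val x.2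
      refine hp.normal _ _ ⟨⟨fun x => ⟨x.1.1, h2 x⟩, rfl⟩, fun x y => rfl⟩ ?_ ?_
      · intro x y hxy
        have h4 : x.1.1 = y.1.1 := congrArg (fun z : p.ker => (z : G)) hxy
        exact Subtype.ext (Subtype.ext h4)
      · have h3 : (⟨⟨fun x => ⟨x.1.1, h2 x⟩, rfl⟩, fun x y => rfl⟩ :
            ((p.comp (f.comp p).ker.subtype).codRestrict f.ker h1).ker →* p.ker).range = ⊤ := by
          rw [MonoidHom.range_eq_top]
          rintro ⟨x, hx⟩
          have hx' : x ∈ (f.comp p).ker := by
            rw [MonoidHom.mem_ker, MonoidHom.comp_apply, (MonoidHom.mem_ker.1 hx), map_one]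
          exact ⟨⟨⟨x, hx'⟩, Subtype.ext hx⟩, rfl⟩
        rw [h3]
        infer_instance

/-- Products of two normal subgroups. -/
theorem Cmp.prod {H : Type u} [iH : Group H] (N M : Subgroup H) [hN : N.Normal]
    (hNM : N ⊔ M = ⊤) (h1 : Cmp (↥N) inferInstance) (h2 : Cmp (↥M) inferInstance) :
    Cmp H iH := by
  have h3 : Cmp (H ⧸ N) inferInstance := by
    refine h2.quot _ _ ((QuotientGroup.mk' N).comp M.subtype) ?_
    rw [← MonoidHom.range_eq_top, MonoidHom.range_eq_map, ← Subgroup.map_map,
      ← MonoidHom.range_eq_map, Subgroup.range_subtype]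
    have h4 : (N ⊔ M).map (QuotientGroup.mk' N) = ⊤ := by
      rw [hNM, ← MonoidHom.range_eq_map, MonoidHom.range_eq_top]
      exact QuotientGroup.mk'_surjective N
    rw [Subgroup.map_sup, QuotientGroup.map_mk'_self, bot_sup_eq] at h4
    exact h4
  refine h3.ext H iH (QuotientGroup.mk' N) (QuotientGroup.mk'_surjective N) ?_
  exact h1.iso (MulEquiv.subgroupCongr (QuotientGroup.ker_mk' N).symm)

end Pool.Agent.Helper35.FitU
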